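import Pool.Agent.Helper37.Arb.Goals

/-!
PROJECT ARB (MP_2b0227_gt), packet ARB-COFACTOR: a principal cofactor of a matrix with kernel
`ℝ 1` and left kernel `ℝ ω`.
-/

namespace Pool.Agent.Helper49.Arb

open Matrix

variable {V : Type} [Fintype V] [DecidableEq V]

theorem det_add_single (M : Matrix V V ℝ) (v₀ q₀ : V) (c : ℝ) :
    (M + Matrix.single v₀ q₀ c).det = M.det + c * M.adjugate q₀ v₀ := by
  have h : M + Matrix.single v₀ q₀ c = M.updateRow v₀ (M v₀ + c • Pi.single q₀ 1) := by
    ext i j
    by_cases hi : i = v₀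
    · subst hi
      rw [Matrix.updateRow_self]
      simp only [Matrix.add_apply, Pi.add_apply, Pi.smul_apply, smul_eq_mul]
      by_cases hj : j = q₀
      · subst hj
        simp
      · rw [Pi.single_eq_of_ne hj]
        simp [Matrix.single, Ne.symm hj]
    · rw [Matrix.updateRow_ne hi]
      simp [Matrix.single, Ne.symm hi]
  rw [h, Matrix.det_updateRow_add, Matrix.updateRow_eq_self, Matrix.det_updateRow_smul,
    Matrix.adjugate_apply]

theorem det_submatrix_ne (M : Matrix V V ℝ) (u : V) :
    (M.submatrix (Subtype.val : {v : V // v ≠ u} → V) Subtype.val).det = M.adjugate u u := by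
  rw [Matrix.adjugate_apply]
  rw [Matrix.twoBlockTriangular_det (M.updateRow u (Pi.single u 1)) (fun v => v ≠ u)]
  · have h2 : (Matrix.toSquareBlockProp (M.updateRow u (Pi.single u 1))
        (fun v => ¬ v ≠ u)).det = 1 := by
      let _ : Unique {v : V // ¬ v ≠ u} :=
        { default := ⟨u, by simp⟩
          uniq := by
            rintro ⟨v, hv⟩
            apply Subtype.ext
            simpa using hv }
      rw [Matrix.det_unique]
      have hd : ((default : {v : V // ¬ v ≠ u}) : V) = u := by
        simpa using (default : {v : V // ¬ v ≠ u}).2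
      show (M.updateRow u (Pi.single u 1)) ((default : {v : V // ¬ v ≠ u}) : V)
        ((default : {v : V // ¬ v ≠ u}) : V) = 1
      rw [hd]
      simp
    rw [h2, mul_one]
    congr 1
    ext i j
    show M i.1 j.1 = (M.updateRow u (Pi.single u 1)) i.1 j.1
    rw [Matrix.updateRow_ne i.2]
  · intro i hi j hj
    have hiu : i = u := by simpa using hi
    subst hiu
    rw [Matrix.updateRow_self, Pi.single_eq_of_ne hj]

theorem cofactor : Pool.Agent.Helper37.Arb.GoalCofactor := by
  intro V _ _ M ω v₀ q₀ u c h1 hω hv hc hdet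
  have hsm : ∀ z : V → ℝ, (Matrix.single v₀ q₀ c).mulVec z = Pi.single v₀ (c * z q₀) := by
    intro z
    rw [Matrix.single_mulVec]
    ext i
    by_cases hi : i = v₀
    · subst hi
      simp
    · simp [hi]
  have hsv : ∀ z : V → ℝ, Matrix.vecMul z (Matrix.single v₀ q₀ c) =
      Pi.single q₀ (z v₀ * c) := by
    intro z
    ext j
    rw [Matrix.vecMul, dotProduct, Finset.sum_eq_single v₀]
    · by_cases hj : j = q₀
      · subst hj
        simp
      · rw [Pi.single_eq_of_ne hj]
        simp [Matrix.single, Ne.symm hj]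
    · intro i _ hi
      simp [Matrix.single, Ne.symm hi]
    · simp
  -- the kernel
  have hker : ∀ z : V → ℝ, M.mulVec z = 0 → ∀ i, z i = z q₀ := by
    intro z hz i
    have h2 : (M + Matrix.single v₀ q₀ c).mulVec (z - z q₀ • (fun _ => (1 : ℝ))) = 0 := by
      rw [Matrix.add_mulVec, Matrix.mulVec_sub, Matrix.mulVec_smul, hz, h1, hsm]
      simp
    have h3 : z - z q₀ • (fun _ => (1 : ℝ)) = 0 := Matrix.eq_zero_of_mulVec_eq_zero hdet h2
    have h4 := congrFun h3 i
    simp at h4
    linarith
  -- the left kernel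
  have hlker : ∀ z : V → ℝ, Matrix.vecMul z M = 0 → ∀ j, z j = z v₀ / ω v₀ * ω j := by
    intro z hz j
    have h2 : Matrix.vecMul (z - (z v₀ / ω v₀) • ω) (M + Matrix.single v₀ q₀ c) = 0 := by
      rw [Matrix.vecMul_add, Matrix.sub_vecMul, Matrix.smul_vecMul, hz, hω, hsv]
      have : (z - (z v₀ / ω v₀) • ω) v₀ = 0 := by
        simp only [Pi.sub_apply, Pi.smul_apply, smul_eq_mul]
        field_simp
        ring
      rw [this]
      simp
    have h3 : z - (z v₀ / ω v₀) • ω = 0 := Matrix.eq_zero_of_vecMul_eq_zero hdet h2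
    have h4 := congrFun h3 j
    simp only [Pi.sub_apply, Pi.smul_apply, smul_eq_mul, Pi.zero_apply] at h4
    linarith
  have hM0 : M.det = 0 := by
    apply Matrix.exists_mulVec_eq_zero_iff.mp
    refine ⟨fun _ => 1, ?_, h1⟩
    intro h
    have := congrFun h v₀
    simp at this
  have hcol : ∀ i j, M.adjugate i j = M.adjugate q₀ j := by
    intro i j
    have h2 : M.mulVec (fun i => M.adjugate i j) = 0 := by
      ext k
      have h3 := congrFun (congrFun (Matrix.mul_adjugate M) k) j
      rw [hM0, zero_smul] at h3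
      exact h3
    exact hker _ h2 i
  have hrow : ∀ i j, M.adjugate i j = M.adjugate i v₀ / ω v₀ * ω j := by
    intro i j
    have h2 : Matrix.vecMul (fun j => M.adjugate i j) M = 0 := by
      ext k
      have h3 := congrFun (congrFun (Matrix.adjugate_mul M) i) k
      rw [hM0, zero_smul] at h3
      exact h3
    exact hlker _ h2 j
  rw [det_submatrix_ne, det_add_single, hM0, hcol u u, hrow q₀ u]
  field_simp
  ring

end Pool.Agent.Helper49.Arb
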